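import Pool.Agent.T2H28.VS.Sqr
import Pool.Agent.T2H28.VS.VojQ
import Pool.Agent.T2H28.VS.Rnd

/-!
# Vojta's conjecture for stacky curves over the points supported on a random set of primes

The setting is that of `ProfileAllHeights`. Let `a_1, a_2, a_3` be distinct rational numbers. We
consider ALL number fields `k`, all smooth projective curves `X` over `k` with finitely many closed
points (or reduced divisors) `Q_1, …, Q_n`, all orders `e_l ≥ 1`, and the root stack `𝒳` over `X` of
order `e_l` at `Q_l`, and all finite maps `t : X → ℙ¹` of degree `N` over `k` which are unramified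
outside the fibres over the `a_j` and map the `Q_l` to the `a_j` (such a map exists by Belyi's
theorem; we may suppose that every point over the `a_j` is in one of the `Q_l`, with `e_l = 1` if it
is not stacky). Let `A` be the ring of functions on `X` with poles only over `∞`, let
`z_{l 0} = t - a_{j(l)}, z_{l 1}, …` be generators of the ideal `I_l` of `Q_l`. Then for a set `J` of
indices and the divisor `𝒟_J` of the stacky points over `Q_l`, `l ∈ J`,
`deg (K_𝒳 + 𝒟_J) / N = 1 - ∑_{l ∉ J} dim (A / I_l) / (e_l N)`.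

The points `P` of `X` (not over `∞`) over a number field `L` containing `k` are the homomorphisms
`φ : A → L` over `k`; such a point outside the `Q_l` is an integral point of `𝒳` over the
`S`-integers of `L` if for every prime `v` of `L` outside `S` the intersection number of `P` and
`Q_l` at `v` is divisible by `e_l` for all `l`.

Let `R` be a random set of primes such that all the primes of a finite set `D` belong to `R` with
probability at most `∏_{p ∈ D} p ^ (-γ)`, for instance because they are chosen independently with the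
probabilities `p ^ (-γ)`. We prove, without any exceptional set and for all heights:

(1) Let `γ > 4/7`. Almost surely, for every finite set `T` of primes, for all `k`, `X`, `t`, `Q_l`,
`S`, all `θ > 0` with `θ (1 - γ) < 1` (for instance `θ = 1`) and all `ε > 0`
`(deg (K_𝒳 + 𝒟_J) / N + θ - 1 - ε) h(x) ≤ N^{(1)}(𝒟_J, P) + d(L) + c`
for the integral points `P` of `𝒳` over ALL number fields `L` containing `k`, over ALL rational
numbers `x` which have the same reduction as some `a_j` only modulo primes of `R ∪ T`, for all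
orders `e_l` and all `J`. For `θ = 1` this is the inequality of Vojta's conjecture.

(2) Let `γ > 1/3`. There is a `θ > 0`, which depends only on `γ` and the `a_j`, such that almost
surely the same inequality holds for this `θ`.
-/

set_option autoImplicit false

namespace Pool.Agent.Results.MP_a41896_nt.RandomPrimeSupport

open Polynomial IsDedekindDomain NumberField Filter Topology MeasureTheory

/-- The rational numbers `x` and `y` have the same reduction modulo `p`, as points of the line. -/
def Same (p : ℕ) (x y : ℚ) : Prop := (p : ℤ) ∣ x.num * y.den - y.num * x.den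

open Classical in
/-- The truncated counting function of `[a_1] + … + [a_q]` at the point `x` of the line over `ℚ`:
the sum of `log p` over the primes `p` modulo which `x` and some `a_j` have the same reduction. -/
noncomputable def counting {q : ℕ} (a : Fin q → ℚ) (x : ℚ) : ℝ :=
  ∑ᶠ p : ℕ, if p.Prime ∧ ∃ j, Same p x (a j) then Real.log p else 0

/-- The logarithmic height of the rational number `x`. -/
noncomputable def height (x : ℚ) : ℝ := Real.log (max x.num.natAbs x.den : ℕ)

/-- The exceptional set `E_θ`: the rational numbers whose truncated counting function is less than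
`θ h(x)`. -/
def Exceptional (a : Fin 3 → ℚ) (θ : ℝ) : Set ℚ := {x | counting a x < θ * height x}

/-- The function `t` on the curve with the ring of functions `A`. -/
noncomputable def coord (k A : Type) [Field k] [CommRing A] [Algebra k[X] A] : A :=
  algebraMap k[X] A X

/-- `P = φ` reduces to a point of `Q = {z_0 = z_1 = ⋯ = 0}` at `v`: `|t(P)|_v ≤ 1` and
`|z_i(P)|_v < 1` for all `i`. -/
def Meets {k A : Type} [Field k] [CommRing A] [Algebra k A] [Algebra k[X] A] {s : ℕ}
    (z : Fin (s + 1) → A) {L : Type} [Field L] [NumberField L] [Algebra k L] (φ : A →ₐ[k] L)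
    (v : HeightOneSpectrum (𝓞 L)) : Prop :=
  v.valuation L (φ (coord k A)) ≤ 1 ∧ ∀ i, v.valuation L (φ (z i)) < 1

/-- `P = φ` is an integral point over the `S`-integers of `L` of the curve with stacky points of
order `e_l` at `Q_l = {z_{l 0} = z_{l 1} = ⋯ = 0}`: for every prime `v` of `L` which contains no
prime of `S` and every `l` such that `P` reduces to a point of `Q_l` at `v`, the intersection number
of `P` and `Q_l` at `v`, that is the number `m` with `max_i |z_{l i}(P)|_v = exp(- m)` (normalised
valuation), is a multiple of `e_l`. -/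
def IsIntegralPoint {k A : Type} [Field k] [CommRing A] [Algebra k A] [Algebra k[X] A] {n : ℕ}
    (S : Finset ℕ) {s : Fin n → ℕ} (z : ∀ l, Fin (s l + 1) → A) (e : Fin n → ℕ) {L : Type}
    [Field L] [NumberField L] [Algebra k L] (φ : A →ₐ[k] L) : Prop :=
  ∀ v : HeightOneSpectrum (𝓞 L), (∀ p ∈ S, (p : 𝓞 L) ∉ v.asIdeal) → ∀ l, Meets (z l) φ v →
    ∃ m : ℕ, e l ∣ m ∧ (∀ i, v.valuation L (φ (z l i)) ≤ WithZero.exp (-(m : ℤ))) ∧
      ∃ i, v.valuation L (φ (z l i)) = WithZero.exp (-(m : ℤ))

open Classical in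
/-- The (absolute) truncated counting function `N^{(1)}(𝒟_J, P)`: the sum of `log N(v) / [L : ℚ]`
over the primes `v` of `L`, not above primes of `S`, at which `P` reduces to a point of `Q_l` for
some `l ∈ J`. -/
noncomputable def truncated {k A : Type} [Field k] [CommRing A] [Algebra k A] [Algebra k[X] A]
    {n : ℕ} (S : Finset ℕ) {s : Fin n → ℕ} (z : ∀ l, Fin (s l + 1) → A) (J : Finset (Fin n))
    {L : Type} [Field L] [NumberField L] [Algebra k L] (φ : A →ₐ[k] L) : ℝ :=
  (∑ᶠ v : HeightOneSpectrum (𝓞 L),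
      if (∀ p ∈ S, (p : 𝓞 L) ∉ v.asIdeal) ∧ ∃ l ∈ J, Meets (z l) φ v
      then Real.log (Ideal.absNorm v.asIdeal) else 0) / Module.finrank ℚ L

/-- The (absolute) logarithmic discriminant `d(L) = log |disc L| / [L : ℚ]`. -/
noncomputable def logDisc (L : Type) [Field L] [NumberField L] : ℝ :=
  Real.log |(NumberField.discr L : ℝ)| / Module.finrank ℚ L

/-- `1 - ∑_{l ∉ J} dim (A / I_l) / (e_l N)` for `I_l = (z_{l 0}, z_{l 1}, …)` and `N` the rank of
`A` over `k[t]`: the number `deg (K_𝒳 + 𝒟_J) / N`. -/
noncomputable def logDegree (k : Type) {A : Type} [Field k] [CommRing A] [Algebra k A]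
    [Algebra k[X] A] {n : ℕ} {s : Fin n → ℕ} (z : ∀ l, Fin (s l + 1) → A)
    (e : Fin n → ℕ) (J : Finset (Fin n)) : ℝ :=
  1 - ∑ l ∈ Jᶜ, (Module.finrank k (A ⧸ Ideal.span (Set.range (z l))) : ℝ) /
    (e l * Module.finrank k[X] A)

open Pool.Agent.T2H28.VS in
theorem counting_eq (a : Fin 3 → ℚ) {x : ℚ} (hx : ∀ j, x ≠ a j) :
    counting a x = Real.log (rd (NP a x)) := by
  rw [← cnt_log a hx]
  unfold counting
  refine finsum_congr fun p => ?_
  by_cases h : p.Prime ∧ ∃ j, Same p x (a j)
  · exact (if_pos h).trans (if_pos h).symm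
  · exact (if_neg h).trans (if_neg h).symm

/-- `E p` is the event that the prime `p` belongs to the random set `R`: all the primes of a finite
set `D` belong to it with probability at most `∏_{p ∈ D} p ^ (-γ)`. -/
def IsSparse {Ω : Type*} [MeasurableSpace Ω] (P : Measure Ω) (γ : ℝ) (E : ℕ → Set Ω) : Prop :=
  ∀ D : Finset ℕ, (∀ p ∈ D, p.Prime) →
    P (⋂ p ∈ D, E p) ≤ ENNReal.ofReal (∏ p ∈ D, (p : ℝ) ^ (-γ))

/-- The rational numbers, different from the `a_j`, which have the same reduction as some `a_j` only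
modulo primes of `R ∪ T`, for the outcome `ω` of the random set `R = {p | ω ∈ E p}`. -/
def Supported (a : Fin 3 → ℚ) {Ω : Type*} (E : ℕ → Set Ω) (T : Finset ℕ) (ω : Ω) : Set ℚ :=
  {x | (∀ j, x ≠ a j) ∧ ∀ p : ℕ, p.Prime → (∃ j, Same p x (a j)) → p ∈ T ∨ ω ∈ E p}

/-- The inequality `(deg (K_𝒳 + 𝒟_J) / N + θ - 1 - ε) h(x) ≤ N^{(1)}(𝒟_J, P) + d(L) + c` for ALL
stacky curves and all points over the elements `x` of `V`: for all number fields `k`, all Dedekind
domains `A`, finite over `k[t]` and containing it (the ring of functions of a smooth affine curve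
over `k` which is finite over the `t`-line), of rank `N`, all closed subschemes `Q_1, …, Q_n` of the
curve, defined by `z_{l 0} = t - a_{j(l)}, z_{l 1}, …`, which contain all points over the `a_j`, all
finite sets `S` of primes and all `ε > 0` there is a constant `c` such that for all `x` in `V`, all
number fields `L` containing `k`, all points `P` of the curve over `L` with `t(P) = x`, all orders
`e_l ≥ 1` for which `P` is an `S`-integral point over `L` of the curve with stacky points of order
`e_l` at `Q_l`, and all `J` the inequality holds. -/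
def VojtaInequality (a : Fin 3 → ℚ) (θ : ℝ) (V : Set ℚ) : Prop :=
  ∀ (k : Type) [Field k] [NumberField k] (A : Type) [CommRing A] [IsDedekindDomain A]
    [Algebra k A] [Algebra k[X] A] [IsScalarTower k k[X] A] [Module.Finite k[X] A]
    [FaithfulSMul k[X] A] (n : ℕ) (j : Fin n → Fin 3) (s : Fin n → ℕ)
    (z : ∀ l, Fin (s l + 1) → A),
    (∀ l, z l 0 = coord k A - algebraMap k A (algebraMap ℚ k (a (j l)))) →
    (∀ i, ∏ l with j l = i, Ideal.span (Set.range (z l)) ≤
      (Ideal.span {coord k A - algebraMap k A (algebraMap ℚ k (a i))}).radical) →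
    ∀ S : Finset ℕ, (∀ p ∈ S, p.Prime) → ∀ ε : ℝ, 0 < ε → ∃ c : ℝ,
      ∀ x ∈ V, ∀ (L : Type) [Field L] [NumberField L] [Algebra k L] (φ : A →ₐ[k] L),
        φ (coord k A) = algebraMap ℚ L x → ∀ e : Fin n → ℕ, (∀ l, 1 ≤ e l) →
        IsIntegralPoint S z e φ → ∀ J : Finset (Fin n),
          (logDegree k z e J + (θ - 1) - ε) * height x ≤ truncated S z J φ + logDisc L + c

open Pool.Agent.T2H28.VS in
theorem height_nonneg (x : ℚ) : 0 ≤ height x :=
  Real.log_natCast_nonneg _

open Pool.Agent.T2H28.VS in
/-- from finitely many exceptions to the inequality -/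
theorem of_finite (a : Fin 3 → ℚ) {θ : ℝ} (hθ : 0 < θ) {V : Set ℚ} (hV : ∀ x ∈ V, ∀ j, x ≠ a j)
    (h : (V ∩ Exceptional a θ).Finite) : VojtaInequality a θ V := by
  classical
  intro k _ _ A _ _ _ _ _ _ _ n j s z hz0 hcov S hS ε hε
  obtain ⟨C₀, hC₀⟩ : ∃ C₀ : ℝ, C₀ = ∑ x ∈ h.toFinset, θ * height x := ⟨_, rfl⟩
  have h0 : 0 ≤ C₀ := by
    rw [hC₀]
    exact Finset.sum_nonneg fun x _ => mul_nonneg hθ.le (height_nonneg x)
  obtain ⟨c, hc⟩ := vojtaQ 3 a θ hθ.le C₀ ε hε k A n j s z hz0 hcov S hS
  refine ⟨c, fun x hx L _ _ _ φ hφ e he hint J => ?_⟩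
  have hxa := hV x hx
  have hcx : 0 ≤ Real.log (rd (NP a x)) := Real.log_natCast_nonneg _
  have h1 := hc x (by
    by_cases hE : x ∈ Exceptional a θ
    · have h2 : θ * height x ≤ C₀ := by
        rw [hC₀]
        exact Finset.single_le_sum (f := fun x : ℚ => θ * height x)
          (fun x _ => mul_nonneg hθ.le (height_nonneg x)) ((Set.Finite.mem_toFinset h).2 ⟨hx, hE⟩)
      have h3 : θ * Real.log (hh x) ≤ C₀ := h2
      linarith
    · have h2 : θ * height x ≤ counting a x := not_lt.1 hE
      rw [counting_eq a hxa] at h2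
      have h3 : θ * Real.log (hh x) ≤ Real.log (rd (NP a x)) := h2
      linarith) hxa L φ hφ e he hint J
  have h2 : (logDegree k z e J + (θ - 1) - ε) * height x =
      (θ - ssum k z e J - ε) * Real.log (hh x) := by
    have e1 : logDegree k z e J = 1 - ssum k z e J := rfl
    have e2 : height x = Real.log (hh x) := rfl
    rw [e1, e2]
    ring
  rw [h2]
  exact h1

open Pool.Agent.T2H28.VS in
/-- almost surely there are finitely many exceptions -/
theorem ae_finite (a : Fin 3 → ℚ) {θ s γ C : ℝ} (hs : 0 ≤ s) (hsγ : s < γ)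
    (hc : ∀ X : ℝ, 1 ≤ X → (VE θ a X).Finite ∧ ((VE θ a X).ncard : ℝ) ≤ C * X ^ s)
    {Ω : Type*} [MeasurableSpace Ω] (P : Measure Ω) (E : ℕ → Set Ω) (h : IsSparse P γ E) :
    ∀ᵐ ω ∂P, ∀ T : Finset ℕ, (Supported a E T ω ∩ Exceptional a θ).Finite := by
  have hset : ∀ X : ℝ, {x | x ∈ {x : ℚ | (∀ j, x ≠ a j) ∧
      (rd (NP a x) : ℝ) < (hh x : ℝ) ^ θ} ∧ (rd (NP a x) : ℝ) ≤ X} = VE θ a X := by
    intro X
    ext x
    constructor
    · rintro ⟨⟨h1, h2⟩, h3⟩
      exact ⟨h1, h3, h2⟩
    · rintro ⟨h1, h2, h3⟩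
      exact ⟨⟨h1, h3⟩, h2⟩
  have h1 := random_finite a {x : ℚ | (∀ j, x ≠ a j) ∧ (rd (NP a x) : ℝ) < (hh x : ℝ) ^ θ}
    (fun x hx => hx.1) hs hsγ (C := C) (by
      intro X hX
      rw [hset X]
      exact hc X hX) P E h
  filter_upwards [h1] with ω hω T
  refine (hω T).subset ?_
  rintro x ⟨⟨h2, h3⟩, h4⟩
  have h4' : counting a x < θ * Real.log (hh x) := h4
  rw [counting_eq a h2, rd_lt_iff] at h4'
  exact ⟨⟨h2, h4'⟩, h3⟩

/-- **Vojta's inequality on stacky curves for the points supported on a random set of primes.** Let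
`a_1, a_2, a_3` be distinct rational numbers, and let `R = {p | ω ∈ E p}` be a random set of primes
such that all the primes of a finite set `D` belong to `R` with probability at most
`∏_{p ∈ D} p ^ (-γ)`.

(1) If `γ > 4/7`, then almost surely, for every finite set `T` and every `θ > 0` with
`θ (1 - γ) < 1`, for instance `θ = 1`, only finitely many of the rational numbers `x` supported on
`R ∪ T`, of whatever height, have truncated counting function less than `θ h(x)`, and the inequality
`(deg (K_𝒳 + 𝒟_J) / N + θ - 1 - ε) h(x) ≤ N^{(1)}(𝒟_J, P) + d(L) + c` holds for ALL stacky curves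
and all their integral points over all the `x` supported on `R ∪ T`.

(2) If `γ > 1/3`, then there is a `θ > 0` which depends only on `γ` and the `a_j` such that almost
surely the same is true for every finite set `T` and this `θ`. -/
theorem result (a : Fin 3 → ℚ) (ha : Function.Injective a) (γ : ℝ) :
    (4 / 7 < γ → ∀ {Ω : Type*} [MeasurableSpace Ω] (P : Measure Ω) (E : ℕ → Set Ω),
      IsSparse P γ E → ∀ᵐ ω ∂P, ∀ T : Finset ℕ, ∀ θ : ℝ, 0 < θ → θ * (1 - γ) < 1 →
        (Supported a E T ω ∩ Exceptional a θ).Finite ∧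
        VojtaInequality a θ (Supported a E T ω)) ∧
    (1 / 3 < γ → ∃ θ : ℝ, 0 < θ ∧ ∀ {Ω : Type*} [MeasurableSpace Ω] (P : Measure Ω)
      (E : ℕ → Set Ω), IsSparse P γ E → ∀ᵐ ω ∂P, ∀ T : Finset ℕ,
        (Supported a E T ω ∩ Exceptional a θ).Finite ∧
        VojtaInequality a θ (Supported a E T ω)) := by
  refine ⟨fun hγ Ω _ P E hE => ?_, fun hγ => ?_⟩
  · have key : ∀ r : ℚ, 0 < r → (r : ℝ) * (1 - γ) < 1 → ∀ᵐ ω ∂P, ∀ T : Finset ℕ,
        (Supported a E T ω ∩ Exceptional a r).Finite := by
      intro r hr hrγ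
      have hr0 : (0 : ℝ) < r := by exact_mod_cast hr
      have h1 : 1 - 1 / (r : ℝ) < γ := by
        have h2 : 1 - γ < 1 / (r : ℝ) := by
          rw [lt_div_iff₀ hr0]
          linarith
        linarith
      obtain ⟨m, hm⟩ : ∃ m : ℝ, m = max (4 / 7) (1 - 1 / (r : ℝ)) := ⟨_, rfl⟩
      have hm1 : m < γ := by rw [hm]; exact max_lt hγ h1
      have hm0 : 4 / 7 ≤ m := by rw [hm]; exact le_max_left _ _
      obtain ⟨C, -, h⟩ := Pool.Agent.T2H28.VS.VE_upper r hr0 a ha ((γ - m) / 2) (by linarith)
      rw [← hm] at h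
      exact ae_finite a (by linarith) (by linarith) h P E hE
    have hall : ∀ᵐ ω ∂P, ∀ r : ℚ, 0 < r → (r : ℝ) * (1 - γ) < 1 → ∀ T : Finset ℕ,
        (Supported a E T ω ∩ Exceptional a r).Finite := by
      rw [ae_all_iff]
      intro r
      by_cases h : 0 < r ∧ (r : ℝ) * (1 - γ) < 1
      · filter_upwards [key r h.1 h.2] with ω hω _ _
        exact hω
      · exact Filter.Eventually.of_forall fun ω h1 h2 => absurd ⟨h1, h2⟩ h
    filter_upwards [hall] with ω hω T θ hθ hθγ
    have hfin : (Supported a E T ω ∩ Exceptional a θ).Finite := by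
      -- a rational number slightly larger than `θ`
      obtain ⟨u, hu⟩ : ∃ u : ℝ, u = 1 - γ := ⟨_, rfl⟩
      rw [← hu] at hθγ
      obtain ⟨r, hr1, hr2⟩ : ∃ r : ℚ, θ < r ∧ (r : ℝ) * u < 1 := by
        rcases le_or_gt u 0 with h | h
        · obtain ⟨r, hr, -⟩ := exists_rat_btwn (lt_add_one θ)
          refine ⟨r, hr, ?_⟩
          have : 0 < (r : ℝ) := hθ.trans hr
          nlinarith
        · have h1 : θ < 1 / u := by rw [lt_div_iff₀ h]; exact hθγ
          obtain ⟨r, hr, hr'⟩ := exists_rat_btwn h1
          refine ⟨r, hr, ?_⟩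
          rwa [lt_div_iff₀ h] at hr'
      have h0 : (0 : ℝ) < r := hθ.trans hr1
      refine (hω r (by exact_mod_cast h0) (by rw [← hu]; exact hr2) T).subset ?_
      rintro x ⟨h1, h2⟩
      refine ⟨h1, ?_⟩
      have h3 : counting a x < θ * height x := h2
      show counting a x < (r : ℝ) * height x
      exact lt_of_lt_of_le h3 (mul_le_mul_of_nonneg_right hr1.le (height_nonneg x))
    exact ⟨hfin, of_finite a hθ (fun x hx => hx.1) hfin⟩
  · obtain ⟨θ, C, hθ, -, h⟩ := Pool.Agent.T2H28.VS.sq_all a ha ((γ - 1 / 3) / 2) (by linarith)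
    refine ⟨θ, hθ, fun {Ω} _ P E hE => ?_⟩
    have h1 := ae_finite a (s := 1 / 3 + (γ - 1 / 3) / 2) (γ := γ) (by linarith) (by linarith)
      (fun X hX => ⟨(h θ le_rfl X hX).1, (h θ le_rfl X hX).2.1⟩) P E hE
    filter_upwards [h1] with ω hω T
    exact ⟨hω T, of_finite a hθ (fun x hx => hx.1) (hω T)⟩

end Pool.Agent.Results.MP_a41896_nt.RandomPrimeSupport
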