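import Pool.Agent.T2H28.VS.Sqr
import Pool.Agent.T2H28.VS.VojQ

/-!
# Vojta's conjecture for stacky curves: the square root bound for the exceptions of all heights

The setting is that of `ProfileAllHeights`. Let `a_1, a_2, a_3` be distinct rational numbers. We
consider ALL number fields `k`, all smooth projective curves `X` over `k` with finitely many closed
points (or reduced divisors) `Q_1, …, Q_n`, all orders `e_l ≥ 1`, and the root stack `𝒳` over `X` of
order `e_l` at `Q_l`, and all finite maps `t : X → ℙ¹` of degree `N` over `k` which are unramified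
outside the fibres over the `a_j` and map the `Q_l` to the `a_j` (such a map exists by Belyi's
theorem; we may suppose that every point over the `a_j` is in one of the `Q_l`, with `e_l = 1` if it
is not stacky). Let `A` be the ring of functions on `X` with poles only over `∞`, let
`z_{l 0} = t - a_{j(l)}, z_{l 1}, …` be generators of the ideal `I_l` of `Q_l`. Then for a set `J` of
indices and the divisor `𝒟_J` of the stacky points over `Q_l`, `l ∈ J`,
`deg (K_𝒳 + 𝒟_J) / N = 1 - ∑_{l ∉ J} dim (A / I_l) / (e_l N)`.

The points `P` of `X` (not over `∞`) over a number field `L` containing `k` are the homomorphisms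
`φ : A → L` over `k`; such a point outside the `Q_l` is an integral point of `𝒳` over the
`S`-integers of `L` if for every prime `v` of `L` outside `S` the intersection number of `P` and
`Q_l` at `v` is divisible by `e_l` for all `l`.

The rational numbers `x`, of all heights, are ordered by the truncated counting function of
`[a_1] + [a_2] + [a_3]`; there are `X ^ (2/3 + o(1))` of them for which it is at most `log X`. Let
`E_θ` be the set of those `x` for which it is less than `θ h(x)`. We prove: for every `δ > 0` there is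
a `θ > 0` such that at most `C X ^ (1/3 + δ)` of the `x` above, the square root of their number, are
in `E_θ`; at most `C X ^ δ (B X) ^ (1/4)` of these meet some `[a_i]` with truncated counting
function at most `log B`, and at most `C X ^ δ √(R₁ R₂)` meet two of the `[a_i]` with truncated
counting functions at most `log R₁`, `log R₂`. For all `k`, `X`, `t`, `Q_l`, `S` and `ε > 0`
`(θ - (1 - deg (K_𝒳 + 𝒟_J) / N) - ε) h(x) ≤ N^{(1)}(𝒟_J, P) + d(L) + c`
for the integral points `P` of `𝒳` over ALL number fields `L` containing `k`, over all `x` not in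
`E_θ`, for all orders `e_l` and all `J`: this is the inequality of Vojta's conjecture up to a constant
factor, if `𝒟_J` contains all points over the `a_j`, or if the other orders `e_l` are large.
-/

set_option autoImplicit false

namespace Pool.Agent.Results.MP_a41896_nt.SquareRootAllHeights

open Polynomial IsDedekindDomain NumberField Filter Topology

/-- The rational numbers `x` and `y` have the same reduction modulo `p`, as points of the line. -/
def Same (p : ℕ) (x y : ℚ) : Prop := (p : ℤ) ∣ x.num * y.den - y.num * x.den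

open Classical in
/-- The truncated counting function of `[a_1] + … + [a_q]` at the point `x` of the line over `ℚ`:
the sum of `log p` over the primes `p` modulo which `x` and some `a_j` have the same reduction. -/
noncomputable def counting {q : ℕ} (a : Fin q → ℚ) (x : ℚ) : ℝ :=
  ∑ᶠ p : ℕ, if p.Prime ∧ ∃ j, Same p x (a j) then Real.log p else 0

/-- The logarithmic height of the rational number `x`. -/
noncomputable def height (x : ℚ) : ℝ := Real.log (max x.num.natAbs x.den : ℕ)

/-- The rational numbers `x`, of whatever height, different from the `a_j`, whose truncated counting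
function with respect to `[a_1] + [a_2] + [a_3]` is at most `log X`. -/
def Values (a : Fin 3 → ℚ) (X : ℝ) : Set ℚ :=
  {x | (∀ j, x ≠ a j) ∧ counting a x ≤ Real.log X}

/-- The exceptional set `E_θ`: the rational numbers whose truncated counting function is less than
`θ h(x)`. -/
def Exceptional (a : Fin 3 → ℚ) (θ : ℝ) : Set ℚ := {x | counting a x < θ * height x}

/-- The function `t` on the curve with the ring of functions `A`. -/
noncomputable def coord (k A : Type) [Field k] [CommRing A] [Algebra k[X] A] : A :=
  algebraMap k[X] A X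

/-- `P = φ` reduces to a point of `Q = {z_0 = z_1 = ⋯ = 0}` at `v`: `|t(P)|_v ≤ 1` and
`|z_i(P)|_v < 1` for all `i`. -/
def Meets {k A : Type} [Field k] [CommRing A] [Algebra k A] [Algebra k[X] A] {s : ℕ}
    (z : Fin (s + 1) → A) {L : Type} [Field L] [NumberField L] [Algebra k L] (φ : A →ₐ[k] L)
    (v : HeightOneSpectrum (𝓞 L)) : Prop :=
  v.valuation L (φ (coord k A)) ≤ 1 ∧ ∀ i, v.valuation L (φ (z i)) < 1

/-- `P = φ` is an integral point over the `S`-integers of `L` of the curve with stacky points of
order `e_l` at `Q_l = {z_{l 0} = z_{l 1} = ⋯ = 0}`: for every prime `v` of `L` which contains no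
prime of `S` and every `l` such that `P` reduces to a point of `Q_l` at `v`, the intersection number
of `P` and `Q_l` at `v`, that is the number `m` with `max_i |z_{l i}(P)|_v = exp(- m)` (normalised
valuation), is a multiple of `e_l`. -/
def IsIntegralPoint {k A : Type} [Field k] [CommRing A] [Algebra k A] [Algebra k[X] A] {n : ℕ}
    (S : Finset ℕ) {s : Fin n → ℕ} (z : ∀ l, Fin (s l + 1) → A) (e : Fin n → ℕ) {L : Type}
    [Field L] [NumberField L] [Algebra k L] (φ : A →ₐ[k] L) : Prop :=
  ∀ v : HeightOneSpectrum (𝓞 L), (∀ p ∈ S, (p : 𝓞 L) ∉ v.asIdeal) → ∀ l, Meets (z l) φ v →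
    ∃ m : ℕ, e l ∣ m ∧ (∀ i, v.valuation L (φ (z l i)) ≤ WithZero.exp (-(m : ℤ))) ∧
      ∃ i, v.valuation L (φ (z l i)) = WithZero.exp (-(m : ℤ))

open Classical in
/-- The (absolute) truncated counting function `N^{(1)}(𝒟_J, P)`: the sum of `log N(v) / [L : ℚ]`
over the primes `v` of `L`, not above primes of `S`, at which `P` reduces to a point of `Q_l` for
some `l ∈ J`. -/
noncomputable def truncated {k A : Type} [Field k] [CommRing A] [Algebra k A] [Algebra k[X] A]
    {n : ℕ} (S : Finset ℕ) {s : Fin n → ℕ} (z : ∀ l, Fin (s l + 1) → A) (J : Finset (Fin n))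
    {L : Type} [Field L] [NumberField L] [Algebra k L] (φ : A →ₐ[k] L) : ℝ :=
  (∑ᶠ v : HeightOneSpectrum (𝓞 L),
      if (∀ p ∈ S, (p : 𝓞 L) ∉ v.asIdeal) ∧ ∃ l ∈ J, Meets (z l) φ v
      then Real.log (Ideal.absNorm v.asIdeal) else 0) / Module.finrank ℚ L

/-- The (absolute) logarithmic discriminant `d(L) = log |disc L| / [L : ℚ]`. -/
noncomputable def logDisc (L : Type) [Field L] [NumberField L] : ℝ :=
  Real.log |(NumberField.discr L : ℝ)| / Module.finrank ℚ L

/-- `1 - ∑_{l ∉ J} dim (A / I_l) / (e_l N)` for `I_l = (z_{l 0}, z_{l 1}, …)` and `N` the rank of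
`A` over `k[t]`: the number `deg (K_𝒳 + 𝒟_J) / N`. -/
noncomputable def logDegree (k : Type) {A : Type} [Field k] [CommRing A] [Algebra k A]
    [Algebra k[X] A] {n : ℕ} {s : Fin n → ℕ} (z : ∀ l, Fin (s l + 1) → A)
    (e : Fin n → ℕ) (J : Finset (Fin n)) : ℝ :=
  1 - ∑ l ∈ Jᶜ, (Module.finrank k (A ⧸ Ideal.span (Set.range (z l))) : ℝ) /
    (e l * Module.finrank k[X] A)

open Pool.Agent.T2H28.VS in
theorem counting_eq (a : Fin 3 → ℚ) {x : ℚ} (hx : ∀ j, x ≠ a j) :
    counting a x = Real.log (rd (NP a x)) := by
  rw [← cnt_log a hx]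
  unfold counting
  refine finsum_congr fun p => ?_
  by_cases h : p.Prime ∧ ∃ j, Same p x (a j)
  · exact (if_pos h).trans (if_pos h).symm
  · exact (if_neg h).trans (if_neg h).symm

open Pool.Agent.T2H28.VS in
theorem values_eq (a : Fin 3 → ℚ) {X : ℝ} (hX : 1 ≤ X) :
    Values a X = {x : ℚ | (∀ j, x ≠ a j) ∧ (rd (NP a x) : ℝ) ≤ X} := by
  ext x
  refine and_congr_right fun hx => ?_
  rw [counting_eq a hx, rd_le_iff (by linarith)]

open Pool.Agent.T2H28.VS in
theorem exc_eq (a : Fin 3 → ℚ) (θ : ℝ) {X : ℝ} (hX : 1 ≤ X) :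
    Exceptional a θ ∩ Values a X = VE θ a X := by
  ext x
  rw [values_eq a hX]
  constructor
  · rintro ⟨h1, h2, h3⟩
    have h1' : counting a x < θ * Real.log (hh x) := h1
    rw [counting_eq a h2, rd_lt_iff] at h1'
    exact ⟨h2, h3, h1'⟩
  · rintro ⟨h1, h2, h3⟩
    refine ⟨?_, h1, h2⟩
    show counting a x < θ * Real.log (hh x)
    rw [counting_eq a h1, rd_lt_iff]
    exact h3

open Pool.Agent.T2H28.VS in
theorem counting_one (y : ℚ) {x : ℚ} (hx : x ≠ y) :
    counting ![y] x = Real.log (rd (cr x y).natAbs) := by
  have h : ∀ j : Fin 1, x ≠ (![y] : Fin 1 → ℚ) j := by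
    intro j
    fin_cases j
    exact hx
  have h1 : counting ![y] x = Real.log (rd (NP ![y] x)) := by
    rw [← cnt_log ![y] h]
    unfold counting
    refine finsum_congr fun p => ?_
    by_cases h : p.Prime ∧ ∃ j, Same p x (![y] j)
    · exact (if_pos h).trans (if_pos h).symm
    · exact (if_neg h).trans (if_neg h).symm
  rw [h1]
  unfold NP
  rw [Fin.prod_univ_one]
  rfl

/-- **The square root bound for the exceptions of all heights to Vojta's inequality on stacky
curves.** Let `a_1, a_2, a_3` be distinct rational numbers.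

(1) The number of the rational numbers `x`, of whatever height, with truncated counting function
`≤ log X` with respect to `[a_1] + [a_2] + [a_3]` is `X ^ (2 / 3 + o(1))`.

(2) For all `δ > 0` there are `θ > 0` and `C` such that at most `C X ^ (1 / 3 + δ)` of them are in
`E_θ`, at most `C X ^ δ (B X) ^ (1 / 4)` of these have truncated counting function at most `log B`
with respect to some `[a_i]`, and at most `C X ^ δ √(R₁ R₂)` of these have truncated counting
functions at most `log R₁` and `log R₂` with respect to two of the `[a_i]`.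

(3) Let `ε > 0`, let `A` be a Dedekind domain, finite over `k[t]` and containing it, `k` any number
field (the ring of functions of a smooth affine curve over `k` which is finite over the `t`-line), of
rank `N`, let `Q_1, …, Q_n` be closed subschemes of the curve, defined by
`z_{l 0} = t - a_{j(l)}, z_{l 1}, …`, which contain all points over the `a_j`, and let `S` be a finite
set of primes. Then there is a constant `c` such that for all rational numbers `x`, different from
the `a_j`, which are not in `E_θ`, all number fields `L` containing `k`, all points `P` of the curve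
over `L` with `t(P) = x` and all orders `e_l ≥ 1` for which `P` is an `S`-integral point over `L` of
the curve with stacky points of order `e_l` at `Q_l`, the inequality
`(θ - (1 - deg (K_𝒳 + 𝒟_J) / N) - ε) h(x) ≤ N^{(1)}(𝒟_J, P) + d(L) + c` holds for all `J`. -/
theorem result (a : Fin 3 → ℚ) (ha : Function.Injective a) :
    Tendsto (fun X : ℝ => Real.log ((Values a X).ncard : ℝ) / Real.log X) atTop (𝓝 (2 / 3)) ∧
    ∀ δ : ℝ, 0 < δ → ∃ θ C : ℝ, 0 < θ ∧ 0 < C ∧
      (∀ X : ℝ, 1 ≤ X → (Exceptional a θ ∩ Values a X).Finite ∧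
        ((Exceptional a θ ∩ Values a X).ncard : ℝ) ≤ C * X ^ (1 / 3 + δ) ∧
        (∀ B : ℝ, 1 ≤ B →
          ({x | x ∈ Exceptional a θ ∩ Values a X ∧
            ∃ i, counting ![a i] x ≤ Real.log B}.ncard : ℝ) ≤
            C * X ^ δ * (B * X) ^ ((1 : ℝ) / 4)) ∧
        (∀ R₁ R₂ : ℝ, 1 ≤ R₁ → 1 ≤ R₂ →
          ({x | x ∈ Exceptional a θ ∩ Values a X ∧ ∃ i j, i ≠ j ∧
            counting ![a i] x ≤ Real.log R₁ ∧ counting ![a j] x ≤ Real.log R₂}.ncard : ℝ) ≤
            C * X ^ δ * Real.sqrt (R₁ * R₂))) ∧
      ∀ (k : Type) [Field k] [NumberField k] (A : Type) [CommRing A] [IsDedekindDomain A]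
        [Algebra k A] [Algebra k[X] A] [IsScalarTower k k[X] A] [Module.Finite k[X] A]
        [FaithfulSMul k[X] A] (n : ℕ) (j : Fin n → Fin 3) (s : Fin n → ℕ)
        (z : ∀ l, Fin (s l + 1) → A),
        (∀ l, z l 0 = coord k A - algebraMap k A (algebraMap ℚ k (a (j l)))) →
        (∀ i, ∏ l with j l = i, Ideal.span (Set.range (z l)) ≤
          (Ideal.span {coord k A - algebraMap k A (algebraMap ℚ k (a i))}).radical) →
        ∀ S : Finset ℕ, (∀ p ∈ S, p.Prime) → ∀ ε : ℝ, 0 < ε → ∃ c : ℝ,
          ∀ x : ℚ, x ∉ Exceptional a θ → (∀ i, x ≠ a i) →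
          ∀ (L : Type) [Field L] [NumberField L] [Algebra k L] (φ : A →ₐ[k] L),
            φ (coord k A) = algebraMap ℚ L x → ∀ e : Fin n → ℕ, (∀ l, 1 ≤ e l) →
            IsIntegralPoint S z e φ → ∀ J : Finset (Fin n),
              (θ - (1 - logDegree k z e J) - ε) * height x ≤
                truncated S z J φ + logDisc L + c := by
  refine ⟨?_, fun δ hδ => ?_⟩
  · refine (Pool.Agent.T2H28.VS.total_tendsto a ha).congr' ?_
    filter_upwards [eventually_ge_atTop 1] with X hX
    rw [values_eq a hX]
  obtain ⟨θ, C, hθ, hC, h⟩ := Pool.Agent.T2H28.VS.sq_all a ha δ hδ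
  refine ⟨θ, C, hθ, hC, fun X hX => ?_, ?_⟩
  · obtain ⟨h1, h2, h3, h4⟩ := h θ le_rfl X hX
    rw [exc_eq a θ hX]
    refine ⟨h1, h2, fun B hB => ?_, fun R₁ R₂ hR₁ hR₂ => ?_⟩
    · refine le_of_eq_of_le ?_ (h3 B hB)
      congr 2
      ext x
      refine and_congr_right fun hx => exists_congr fun i => ?_
      rw [counting_one (a i) (hx.1 i), Pool.Agent.T2H28.VS.rd_le_iff (by linarith)]
    · refine le_of_eq_of_le ?_ (h4 R₁ R₂ hR₁ hR₂)
      congr 2
      ext x
      refine and_congr_right fun hx => exists_congr fun i => exists_congr fun j =>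
        and_congr_right fun _ => ?_
      rw [counting_one (a i) (hx.1 i), counting_one (a j) (hx.1 j),
        Pool.Agent.T2H28.VS.rd_le_iff (by linarith), Pool.Agent.T2H28.VS.rd_le_iff (by linarith)]
  · intro k _ _ A _ _ _ _ _ _ _ n j s z hz0 hcov S hS ε hε
    obtain ⟨c, hc⟩ := Pool.Agent.T2H28.VS.vojtaQ 3 a θ hθ.le 0 ε hε k A n j s z hz0 hcov S hS
    refine ⟨c, fun x hx hxa L _ _ _ φ hφ e he hint J => ?_⟩
    have h1 := hc x (by
      rw [add_zero, ← counting_eq a hxa]
      exact not_lt.1 hx) hxa L φ hφ e he hint J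
    have h2 : (θ - (1 - logDegree k z e J) - ε) * height x =
        (θ - Pool.Agent.T2H28.VS.ssum k z e J - ε) *
          Real.log (Pool.Agent.T2H28.VS.hh x) := by
      have e1 : logDegree k z e J = 1 - Pool.Agent.T2H28.VS.ssum k z e J := rfl
      have e2 : height x = Real.log (Pool.Agent.T2H28.VS.hh x) := rfl
      rw [e1, e2]
      ring
    rw [h2]
    exact h1

end Pool.Agent.Results.MP_a41896_nt.SquareRootAllHeights
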